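import Mathlib

/-! Rational sums that vanish modulo `p^r`. -/

set_option autoImplicit false

namespace Pool.Agent.Helper484_HSum

open Finset

theorem int_unit_mul {p : ℕ} (hp : p.Prime) (r : ℕ) (x : ℤ) (hx : ¬ (p : ℤ) ∣ x) :
    (x : ZMod (p ^ r)) * (x : ZMod (p ^ r))⁻¹ = 1 := by
  apply ZMod.coe_int_mul_inv_eq_one
  have h1 : IsCoprime (p : ℤ) x := by
    rw [Int.isCoprime_iff_gcd_eq_one]
    rw [← Nat.cast_inj (R := ℤ)] at *
    have hpi : Prime (p : ℤ) := Nat.prime_iff_prime_int.1 hp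
    have := (hpi.irreducible.coprime_iff_not_dvd).2 hx
    rw [Int.isCoprime_iff_gcd_eq_one] at this
    exact_mod_cast this
  push_cast
  exact (h1.symm).pow_right

/-- If the sum of the `A i / B i` vanishes in `ZMod (p^r)`, the `B i` prime to `p`, then the
rational sum is `p^r a / b` with `b` prime to `p`. -/
theorem rat_sum {ι : Type*} [DecidableEq ι] {p : ℕ} (hp : p.Prime) (r : ℕ) (s : Finset ι)
    (A B : ι → ℤ) (hB : ∀ i ∈ s, ¬ (p : ℤ) ∣ B i)
    (h : ∑ i ∈ s, (A i : ZMod (p ^ r)) * (B i : ZMod (p ^ r))⁻¹ = 0) :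
    ∃ a b : ℤ, ¬ (p : ℤ) ∣ b ∧ ∑ i ∈ s, (A i : ℚ) / (B i : ℚ) = (p : ℚ) ^ r * a / b := by
  have hpi : Prime (p : ℤ) := Nat.prime_iff_prime_int.1 hp
  let D : ℤ := ∏ i ∈ s, B i
  let N : ℤ := ∑ i ∈ s, A i * ∏ j ∈ s.erase i, B j
  have hD : ¬ (p : ℤ) ∣ D := by
    intro hd
    obtain ⟨i, hi, hd'⟩ := hpi.exists_mem_finset_dvd hd
    exact hB i hi hd'
  have hN : (N : ZMod (p ^ r)) = 0 := by
    have : (N : ZMod (p ^ r)) = (D : ZMod (p ^ r)) *
        ∑ i ∈ s, (A i : ZMod (p ^ r)) * (B i : ZMod (p ^ r))⁻¹ := by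
      simp only [N, D]
      push_cast
      rw [mul_sum]
      apply sum_congr rfl
      intro i hi
      rw [← mul_prod_erase s _ hi]
      have hu := int_unit_mul hp r (B i) (hB i hi)
      generalize (B i : ZMod (p ^ r))⁻¹ = u at *
      generalize (B i : ZMod (p ^ r)) = b at *
      linear_combination (-(A i : ZMod (p ^ r)) * ∏ x ∈ s.erase i, (B x : ZMod (p ^ r))) * hu
    rw [this, h, mul_zero]
  rw [ZMod.intCast_zmod_eq_zero_iff_dvd] at hN
  obtain ⟨a, ha⟩ := hN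
  refine ⟨a, D, hD, ?_⟩
  have hD0 : (D : ℚ) ≠ 0 := by
    have : D ≠ 0 := by
      intro h0
      apply hD
      rw [h0]
      exact dvd_zero _
    exact_mod_cast this
  have h1 : (∑ i ∈ s, (A i : ℚ) / (B i : ℚ)) * D = N := by
    simp only [N, D]
    push_cast
    rw [sum_mul]
    apply sum_congr rfl
    intro i hi
    rw [← mul_prod_erase s _ hi]
    have : (B i : ℚ) ≠ 0 := by
      have : B i ≠ 0 := by
        intro h0
        apply hB i hi
        rw [h0]
        exact dvd_zero _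
      exact_mod_cast this
    field_simp
  rw [eq_div_iff hD0, h1, ha]
  push_cast
  ring

end Pool.Agent.Helper484_HSum
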