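import Mathlib

/-!
Power sums of inverses of `1, ..., p-1` in `ZMod (p^k)`.
-/

namespace Pool.Agent.Helper484_HSum

lemma unit_mul {p : ℕ} (hp : p.Prime) (k : ℕ) {j : ℕ} (h1 : 1 ≤ j) (h2 : j < p) :
    (j : ZMod (p ^ k)) * (j : ZMod (p ^ k))⁻¹ = 1 := by
  apply ZMod.coe_mul_inv_eq_one
  apply Nat.Coprime.pow_right
  rw [Nat.coprime_comm]
  exact (Nat.Prime.coprime_iff_not_dvd hp).2 (Nat.not_dvd_of_pos_of_lt (by omega) h2)

lemma pow_self {p : ℕ} (k : ℕ) : (p : ZMod (p ^ k)) ^ k = 0 := by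
  have : ((p ^ k : ℕ) : ZMod (p ^ k)) = 0 := ZMod.natCast_self _
  push_cast at this
  exact this

/-- An element of `ZMod (p^(k+1))` that vanishes modulo `p` is killed by `p^k`. -/
lemma mul_eq_zero_of_cast {p : ℕ} (hp : p.Prime) (k : ℕ) (x : ZMod (p ^ (k + 1)))
    (hx : ZMod.castHom (dvd_pow_self p (Nat.succ_ne_zero k)) (ZMod p) x = 0) :
    (p : ZMod (p ^ (k + 1))) ^ k * x = 0 := by
  have : NeZero (p ^ (k + 1)) := ⟨pow_ne_zero _ hp.ne_zero⟩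
  have h1 : ((x.val : ℕ) : ZMod (p ^ (k + 1))) = x := ZMod.natCast_zmod_val x
  rw [← h1, map_natCast, ZMod.natCast_eq_zero_iff] at hx
  obtain ⟨m, hm⟩ := hx
  rw [← h1, hm]
  push_cast
  rw [← mul_assoc, ← pow_succ, pow_self, zero_mul]

lemma sum_Ico_zmod {p : ℕ} [Fact p.Prime] (f : ZMod p → ZMod p) :
    ∑ j ∈ Finset.Ico 1 p, f (j : ZMod p) = ∑ x : (ZMod p)ˣ, f x := by
  have hp := (Fact.out : p.Prime)
  symm
  refine Finset.sum_bij' (fun (x : (ZMod p)ˣ) _ => (x : ZMod p).val)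
    (fun j hj => Units.mk0 (j : ZMod p) ?_) ?_ ?_ ?_ ?_ ?_
  · rw [Finset.mem_Ico] at hj
    rw [Ne, ZMod.natCast_eq_zero_iff]
    exact Nat.not_dvd_of_pos_of_lt (by omega) hj.2
  · intro x _
    rw [Finset.mem_Ico]
    refine ⟨?_, ZMod.val_lt _⟩
    rw [Nat.one_le_iff_ne_zero, Ne, ZMod.val_eq_zero]
    exact x.ne_zero
  · intro j hj
    exact Finset.mem_univ _
  · intro x _
    ext
    simp
  · intro j hj
    rw [Finset.mem_Ico] at hj
    simp only [Units.val_mk0]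
    exact ZMod.val_natCast_of_lt hj.2
  · intro x _
    simp

lemma powsum {p : ℕ} (hp : p.Prime) (k s : ℕ) (hs : ¬ (p - 1) ∣ s) :
    (p : ZMod (p ^ (k + 1))) ^ k *
      ∑ j ∈ Finset.Ico 1 p, ((j : ZMod (p ^ (k + 1)))⁻¹) ^ s = 0 := by
  have : Fact p.Prime := ⟨hp⟩
  apply mul_eq_zero_of_cast hp
  rw [map_sum]
  have h1 : ∀ j ∈ Finset.Ico 1 p,
      ZMod.castHom (dvd_pow_self p (Nat.succ_ne_zero k)) (ZMod p)
        (((j : ZMod (p ^ (k + 1)))⁻¹) ^ s) = ((j : ZMod p)⁻¹) ^ s := by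
    intro j hj
    rw [Finset.mem_Ico] at hj
    have h := unit_mul hp (k + 1) hj.1 hj.2
    have h2 := congrArg (ZMod.castHom (dvd_pow_self p (Nat.succ_ne_zero k)) (ZMod p)) h
    rw [map_mul, map_natCast, map_one] at h2
    rw [map_pow, eq_inv_of_mul_eq_one_right h2]
  rw [Finset.sum_congr rfl h1, sum_Ico_zmod (fun x => x⁻¹ ^ s)]
  have h2 : ∑ x : (ZMod p)ˣ, ((x : ZMod p))⁻¹ ^ s = ∑ x : (ZMod p)ˣ, (x : ZMod p) ^ s := by
    refine Fintype.sum_equiv (Equiv.inv (ZMod p)ˣ) _ _ ?_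
    intro x
    show ((x : ZMod p))⁻¹ ^ s = ((x⁻¹ : (ZMod p)ˣ) : ZMod p) ^ s
    rw [Units.val_inv_eq_inv_val]
  rw [h2]
  have h3 := FiniteField.sum_pow_units (ZMod p) s
  rw [ZMod.card] at h3
  simpa [hs] using h3

lemma sum_reflect {p : ℕ} {M : Type*} [AddCommMonoid M] (f : ℕ → M) :
    ∑ j ∈ Finset.Ico 1 p, f j = ∑ j ∈ Finset.Ico 1 p, f (p - j) := by
  refine Finset.sum_bij' (fun j _ => p - j) (fun j _ => p - j) ?_ ?_ ?_ ?_ ?_
  · intro j hj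
    rw [Finset.mem_Ico] at *
    omega
  · intro j hj
    rw [Finset.mem_Ico] at *
    omega
  · intro j hj
    rw [Finset.mem_Ico] at *
    omega
  · intro j hj
    rw [Finset.mem_Ico] at *
    omega
  · intro j hj
    rw [Finset.mem_Ico] at *
    congr 1
    omega

/-- `(p - j)⁻¹ = -j⁻¹ - p j⁻² + p² (...)`. -/
lemma inv_reflect {p : ℕ} (hp : p.Prime) (k : ℕ) {j : ℕ} (h1 : 1 ≤ j) (h2 : j < p) :
    ((p - j : ℕ) : ZMod (p ^ k))⁻¹ = -(j : ZMod (p ^ k))⁻¹ +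
      (p : ZMod (p ^ k)) * (j : ZMod (p ^ k))⁻¹ * ((p - j : ℕ) : ZMod (p ^ k))⁻¹ := by
  have e1 := unit_mul hp k h1 h2
  have e2 := unit_mul hp k (show 1 ≤ p - j by omega) (show p - j < p by omega)
  have e3 : ((p - j : ℕ) : ZMod (p ^ k)) = (p : ZMod (p ^ k)) - j := by
    rw [Nat.cast_sub h2.le]
  rw [e3] at e2 ⊢
  generalize ((p : ZMod (p ^ k)) - (j : ZMod (p ^ k)))⁻¹ = v at *
  generalize ((j : ZMod (p ^ k)))⁻¹ = u at *
  linear_combination (-u) * e2 - v * e1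

lemma isUnit_two {p : ℕ} (hp : p.Prime) (h : p ≠ 2) (k : ℕ) : IsUnit (2 : ZMod (p ^ k)) := by
  have : IsUnit ((2 : ℕ) : ZMod (p ^ k)) := by
    rw [ZMod.isUnit_iff_coprime]
    apply Nat.Coprime.pow_right
    rw [Nat.coprime_comm]
    exact hp.coprime_iff_not_dvd.2 fun hd =>
      h ((Nat.prime_dvd_prime_iff_eq hp Nat.prime_two).1 hd)
  simpa using this

end Pool.Agent.Helper484_HSum
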