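import Mathlib
import Pool.Agent.helper484_hsum.Basic

/-!
Odd power sums modulo `p^2`, binomial coefficients `C(p-1,j)`, `C(p+j,j)` in `ZMod (p^r)`, and
numerators of rational sums.
-/

namespace Pool.Agent.Helper484_HSum

/-- `(p-j)^(-s) = (-1)^s (j^(-s) + s p j^(-s-1))` modulo `p^2`. -/
lemma inv_reflect_pow {p : ℕ} (hp : p.Prime) (r s : ℕ) {j : ℕ} (h1 : 1 ≤ j) (h2 : j < p) :
    ∃ w : ZMod (p ^ r), (((p - j : ℕ) : ZMod (p ^ r))⁻¹) ^ s =
      (-1) ^ s * ((j : ZMod (p ^ r))⁻¹ ^ s +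
        s * (p : ZMod (p ^ r)) * (j : ZMod (p ^ r))⁻¹ ^ (s + 1)) + (p : ZMod (p ^ r)) ^ 2 * w := by
  have hv := inv_reflect hp r h1 h2
  generalize ((p - j : ℕ) : ZMod (p ^ r))⁻¹ = v at *
  generalize ((j : ZMod (p ^ r)))⁻¹ = u at *
  generalize (p : ZMod (p ^ r)) = P at *
  have hv2 : v = -u - P * u ^ 2 + P ^ 2 * (u ^ 2 * v) := by
    linear_combination (1 + P * u) * hv
  induction s with
  | zero => exact ⟨0, by simp⟩
  | succ s ih =>
    obtain ⟨w, hw⟩ := ih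
    refine ⟨-((-1) ^ s * s * u ^ (s + 3)) + u ^ 2 * v * v ^ s - (u + P * u ^ 2) * w, ?_⟩
    have e1 : v ^ (s + 1) = (-u - P * u ^ 2) * v ^ s + P ^ 2 * (u ^ 2 * v) * v ^ s := by
      rw [pow_succ]
      linear_combination v ^ s * hv2
    rw [e1]
    push_cast
    linear_combination (-u - P * u ^ 2) * hw

/-- For odd `s` with `(p-1) ∤ s+1`, the sum of the `j^(-s)` vanishes modulo `p^2`. -/
lemma odd_powsum {p : ℕ} (hp : p.Prime) (h2 : p ≠ 2) (k s : ℕ) (hs : Odd s)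
    (hd : ¬ (p - 1) ∣ (s + 1)) :
    (p : ZMod (p ^ (k + 2))) ^ k *
      ∑ j ∈ Finset.Ico 1 p, ((j : ZMod (p ^ (k + 2)))⁻¹) ^ s = 0 := by
  have h0 := powsum hp (k + 1) (s + 1) hd
  have hk : (p : ZMod (p ^ (k + 2))) ^ (k + 2) = 0 := pow_self (k + 2)
  have e : (p : ZMod (p ^ (k + 2))) ^ k *
      ∑ j ∈ Finset.Ico 1 p, ((j : ZMod (p ^ (k + 2)))⁻¹) ^ s =
      ∑ j ∈ Finset.Ico 1 p, (-((p : ZMod (p ^ (k + 2))) ^ k *
        ((j : ZMod (p ^ (k + 2)))⁻¹) ^ s) -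
        s * ((p : ZMod (p ^ (k + 2))) ^ (k + 1) * ((j : ZMod (p ^ (k + 2)))⁻¹) ^ (s + 1))) := by
    rw [sum_reflect (p := p), Finset.mul_sum]
    refine Finset.sum_congr rfl fun j hj => ?_
    rw [Finset.mem_Ico] at hj
    obtain ⟨w, hw⟩ := inv_reflect_pow hp (k + 2) s hj.1 hj.2
    rw [hw, hs.neg_one_pow]
    linear_combination w * hk
  rw [Finset.sum_sub_distrib, Finset.sum_neg_distrib,
    ← Finset.mul_sum (a := (s : ZMod (p ^ (k + 2)))), ← Finset.mul_sum, ← Finset.mul_sum] at e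
  have h00 : (p : ZMod (p ^ (k + 2))) ^ (k + 1) *
      ∑ j ∈ Finset.Ico 1 p, ((j : ZMod (p ^ (k + 2)))⁻¹) ^ (s + 1) = 0 := h0
  rw [h00] at e
  refine (isUnit_two hp h2 (k + 2)).mul_right_eq_zero.1 ?_
  linear_combination e

/-- `C(p-1,j) = -C(p-1,j-1) (1 - p/j)`. -/
lemma choose_pred {p : ℕ} (hp : p.Prime) (r : ℕ) {j : ℕ} (h1 : 1 ≤ j) (h2 : j < p) :
    (((p - 1).choose j : ℕ) : ZMod (p ^ r)) = -(((p - 1).choose (j - 1) : ℕ) : ZMod (p ^ r)) *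
      (1 - (p : ZMod (p ^ r)) * (j : ZMod (p ^ r))⁻¹) := by
  obtain ⟨i, rfl⟩ : ∃ i, j = i + 1 := ⟨j - 1, by omega⟩
  have hu := unit_mul hp r h1 h2
  have e1 : (((p - 1).choose (i + 1) : ℕ) : ZMod (p ^ r)) * ((i + 1 : ℕ) : ZMod (p ^ r)) =
      (((p - 1).choose i : ℕ) : ZMod (p ^ r)) *
        ((p : ZMod (p ^ r)) - ((i + 1 : ℕ) : ZMod (p ^ r))) := by
    have h := Nat.choose_succ_right_eq (p - 1) i
    have h' : p - 1 - i = p - (i + 1) := by omega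
    rw [h'] at h
    have h2 := congrArg (Nat.cast : ℕ → ZMod (p ^ r)) h
    rw [Nat.cast_mul, Nat.cast_mul, Nat.cast_sub (by omega)] at h2
    exact h2
  simp only [Nat.add_sub_cancel]
  generalize (((p - 1).choose (i + 1) : ℕ) : ZMod (p ^ r)) = B1 at *
  generalize (((p - 1).choose i : ℕ) : ZMod (p ^ r)) = B0 at *
  generalize ((i + 1 : ℕ) : ZMod (p ^ r))⁻¹ = u at *
  generalize ((i + 1 : ℕ) : ZMod (p ^ r)) = J at *
  generalize (p : ZMod (p ^ r)) = P at *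
  linear_combination u * e1 - B1 * hu - B0 * hu

/-- `C(p+j,j) = C(p+j-1,j-1) (1 + p/j)`. -/
lemma choose_add {p : ℕ} (hp : p.Prime) (r : ℕ) {j : ℕ} (h1 : 1 ≤ j) (h2 : j < p) :
    (((p + j).choose j : ℕ) : ZMod (p ^ r)) =
      (((p + (j - 1)).choose (j - 1) : ℕ) : ZMod (p ^ r)) *
      (1 + (p : ZMod (p ^ r)) * (j : ZMod (p ^ r))⁻¹) := by
  obtain ⟨i, rfl⟩ : ∃ i, j = i + 1 := ⟨j - 1, by omega⟩
  have hu := unit_mul hp r h1 h2
  have e2 : (((p + (i + 1)).choose (i + 1) : ℕ) : ZMod (p ^ r)) * ((i + 1 : ℕ) : ZMod (p ^ r)) =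
      (((p + i).choose i : ℕ) : ZMod (p ^ r)) *
        ((p : ZMod (p ^ r)) + ((i + 1 : ℕ) : ZMod (p ^ r))) := by
    have h := Nat.add_one_mul_choose_eq (p + i) i
    have h2 := congrArg (Nat.cast : ℕ → ZMod (p ^ r)) h
    rw [Nat.cast_mul, Nat.cast_mul] at h2
    have h3 : ((p + i + 1 : ℕ) : ZMod (p ^ r)) =
        (p : ZMod (p ^ r)) + ((i + 1 : ℕ) : ZMod (p ^ r)) := by push_cast; ring
    rw [h3, mul_comm _ (((p + i).choose i : ℕ) : ZMod (p ^ r))] at h2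
    exact h2.symm
  simp only [Nat.add_sub_cancel]
  generalize (((p + (i + 1)).choose (i + 1) : ℕ) : ZMod (p ^ r)) = B1 at *
  generalize (((p + i).choose i : ℕ) : ZMod (p ^ r)) = B0 at *
  generalize ((i + 1 : ℕ) : ZMod (p ^ r))⁻¹ = u at *
  generalize ((i + 1 : ℕ) : ZMod (p ^ r)) = J at *
  generalize (p : ZMod (p ^ r)) = P at *
  linear_combination u * e2 - B1 * hu + B0 * hu

/-- `C(p-1+j,j) = (p/j) C(p+j-1,j-1)`. -/
lemma choose_pred_add {p : ℕ} (hp : p.Prime) (r : ℕ) {j : ℕ} (h1 : 1 ≤ j) (h2 : j < p) :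
    (((p - 1 + j).choose j : ℕ) : ZMod (p ^ r)) =
      (p : ZMod (p ^ r)) * (j : ZMod (p ^ r))⁻¹ *
      (((p + (j - 1)).choose (j - 1) : ℕ) : ZMod (p ^ r)) := by
  obtain ⟨i, rfl⟩ : ∃ i, j = i + 1 := ⟨j - 1, by omega⟩
  have hu := unit_mul hp r h1 h2
  have e3 : (((p - 1 + (i + 1)).choose (i + 1) : ℕ) : ZMod (p ^ r)) *
      ((i + 1 : ℕ) : ZMod (p ^ r)) =
      (((p + i).choose i : ℕ) : ZMod (p ^ r)) * (p : ZMod (p ^ r)) := by
    have h := Nat.choose_succ_right_eq (p + i) i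
    have h' : p + i - i = p := by omega
    rw [h'] at h
    have h'' : p - 1 + (i + 1) = p + i := by omega
    rw [h'']
    have h2 := congrArg (Nat.cast : ℕ → ZMod (p ^ r)) h
    rw [Nat.cast_mul, Nat.cast_mul] at h2
    exact h2
  simp only [Nat.add_sub_cancel]
  generalize (((p - 1 + (i + 1)).choose (i + 1) : ℕ) : ZMod (p ^ r)) = B1 at *
  generalize (((p + i).choose i : ℕ) : ZMod (p ^ r)) = B0 at *
  generalize ((i + 1 : ℕ) : ZMod (p ^ r))⁻¹ = u at *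
  generalize ((i + 1 : ℕ) : ZMod (p ^ r)) = J at *
  generalize (p : ZMod (p ^ r)) = P at *
  linear_combination u * e3 - B1 * hu

/-- `(C(p-1,j) C(p+j,j))^2 ≡ 1` modulo `p^2`. -/
lemma choose_sq {p : ℕ} (hp : p.Prime) (r j : ℕ) (hj : j < p) :
    ∃ c : ZMod (p ^ r), ((((p - 1).choose j : ℕ) : ZMod (p ^ r)) *
      (((p + j).choose j : ℕ) : ZMod (p ^ r))) ^ 2 = 1 + (p : ZMod (p ^ r)) ^ 2 * c := by
  induction j with
  | zero => exact ⟨0, by simp⟩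
  | succ j ih =>
    obtain ⟨c, hc⟩ := ih (by omega)
    rw [choose_pred hp r (by omega) hj, choose_add hp r (by omega) hj]
    simp only [Nat.add_sub_cancel]
    generalize ((j + 1 : ℕ) : ZMod (p ^ r))⁻¹ = u at *
    generalize (p : ZMod (p ^ r)) = P at *
    refine ⟨c * (1 - P ^ 2 * u ^ 2) ^ 2 + (-2 * u ^ 2 + P ^ 2 * u ^ 4), ?_⟩
    linear_combination (1 - P ^ 2 * u ^ 2) ^ 2 * hc

/-- If `∑ f(k) k^(-e)` vanishes in `ZMod (p^r)` then `p^r` divides the numerator of the rational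
number `∑ f(k) / k^e`. -/
lemma num_dvd {p : ℕ} (hp : p.Prime) (r e : ℕ) (f : ℕ → ℤ)
    (h : ∑ k ∈ Finset.Ico 1 p, (f k : ZMod (p ^ r)) * ((k : ZMod (p ^ r))⁻¹) ^ e = 0) :
    (p : ℤ) ^ r ∣ (∑ k ∈ Finset.Ico 1 p, (f k : ℚ) / (k : ℚ) ^ e).num := by
  set S : ℚ := ∑ k ∈ Finset.Ico 1 p, (f k : ℚ) / (k : ℚ) ^ e with hS
  let D : ℕ := ((p - 1).factorial) ^ e
  have hD : Nat.Coprime p D := by
    apply Nat.Coprime.pow_right
    rw [hp.coprime_iff_not_dvd, hp.dvd_factorial]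
    have := hp.two_le
    omega
  -- integer version
  obtain ⟨g, hfac⟩ : ∃ g : ℕ → ℕ, ∀ k ∈ Finset.Ico 1 p, k * g k = (p - 1).factorial := by
    refine ⟨fun k => (p - 1).factorial / k, fun k hk => ?_⟩
    rw [Finset.mem_Ico] at hk
    exact Nat.mul_div_cancel' (Nat.dvd_factorial (by omega) (by omega))
  let N : ℤ := ∑ k ∈ Finset.Ico 1 p, f k * (g k : ℤ) ^ e
  have hN1 : (N : ZMod (p ^ r)) = 0 := by
    have : (N : ZMod (p ^ r)) = (D : ZMod (p ^ r)) *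
        ∑ k ∈ Finset.Ico 1 p, (f k : ZMod (p ^ r)) * ((k : ZMod (p ^ r))⁻¹) ^ e := by
      simp only [N, D]
      rw [Int.cast_sum, Finset.mul_sum]
      refine Finset.sum_congr rfl fun k hk => ?_
      have h1 := hfac k hk
      rw [Finset.mem_Ico] at hk
      have hu := unit_mul hp r hk.1 hk.2
      have h2 := congrArg (Nat.cast : ℕ → ZMod (p ^ r)) h1
      rw [Nat.cast_mul] at h2
      push_cast
      rw [← h2, mul_pow]
      generalize ((k : ZMod (p ^ r)))⁻¹ = u at *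
      have h3 : ((k : ZMod (p ^ r)) * u) ^ e = 1 := by rw [hu, one_pow]
      rw [mul_pow] at h3
      linear_combination (-(f k : ZMod (p ^ r)) * (g k : ZMod (p ^ r)) ^ e) * h3
    rw [this, h, mul_zero]
  have hN2 : (p : ℤ) ^ r ∣ N := by
    rw [ZMod.intCast_zmod_eq_zero_iff_dvd] at hN1
    exact_mod_cast hN1
  have hN3 : (N : ℚ) = S * (D : ℚ) := by
    rw [hS, Finset.sum_mul]
    simp only [N, D]
    rw [Int.cast_sum]
    refine Finset.sum_congr rfl fun k hk => ?_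
    have h1 := hfac k hk
    rw [Finset.mem_Ico] at hk
    have hk0 : (k : ℚ) ≠ 0 := by
      have : k ≠ 0 := by omega
      exact_mod_cast this
    have h2 := congrArg (Nat.cast : ℕ → ℚ) h1
    rw [Nat.cast_mul] at h2
    push_cast
    rw [← h2, mul_pow]
    field_simp
  have hN4 : N * (S.den : ℤ) = S.num * (D : ℤ) := by
    have h1 : (N : ℚ) * (S.den : ℚ) = (S.num : ℚ) * (D : ℚ) := by
      rw [hN3]
      have := Rat.mul_den_eq_num S
      linear_combination (D : ℚ) * this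
    exact_mod_cast h1
  have hN5 : (p : ℤ) ^ r ∣ S.num * (D : ℤ) := by
    rw [← hN4]
    exact Dvd.dvd.mul_right hN2 _
  refine IsCoprime.dvd_of_dvd_mul_right ?_ hN5
  apply IsCoprime.pow_left
  exact Nat.isCoprime_iff_coprime.2 hD

end Pool.Agent.Helper484_HSum
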